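import Pool.Agent.Helper9.CC.Main2
import Pool.Agent.Helper9.CC.Final
import Pool.Agent.Helper9.FL.Mix
import Pool.Agent.Helper9.PP.Wrd
import Pool.Agent.Helper9.PP.Min
import Pool.Agent.Helper83.CC.Ord
import Pool.Agent.Helper36.CC.NEF
import Pool.Agent.Helper31.CC.Genr
import Pool.Agent.Helper90.CC.Perm
import Pool.Agent.Helper4.CC.DOM
import Pool.Agent.Helper32.CC.EFF
import Pool.Agent.Helper72.CC.Sym
import Pool.Agent.Helper45.CC.Amp
import Pool.Agent.Helper13.CC.WT
import Pool.Agent.Helper4.CC.GEN2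
import Pool.Agent.Helper41.CC2.RRB
import Pool.Agent.Helper66.FL.HN
import Pool.Agent.Helper80.PP.Core
import Pool.Agent.Helper63.PP.Va
import Pool.Agent.Helper22.PP.Mod
import Pool.Agent.Helper85.PP.Obs
import Pool.Agent.Helper81.PP.Sec
import Pool.Agent.Helper43.PP.Grow
import Pool.Agent.Helper4.PP.Jets
import Pool.Agent.Helper45.PP.Pos

set_option autoImplicit false

/-!
The cone conjecture for Calabi-Yau pairs on fibre products of projective bundles over curves.
-/

namespace Pool.Agent.Results.MP_9f99c5_ag.FibreProductPairs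

open Pool.Agent.Helper9.FJ Pool.Agent.Helper9.PP Pool.Agent.Helper9.FL Pool.Agent.Helper9.CC
  Pool.Agent.Helper9.CC.Final FF

/-- Let `C` be a smooth projective curve with the function field `K`, `E j`, `j < l`, vector bundles of
ranks `r j ≥ 2` on `C`, `l ≥ 1`, and `X` the fibre product over `C` of the projective bundles `P(E j)`.

(1) If there is an effective divisor `Δ` with real coefficients on `X` such that `(X, Δ)` is log
canonical (in particular, if it is klt) and `K_X + Δ` is numerically trivial, then the genus of `C` is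
at most `1`.

(2) If the genus of `C` is at most `1`, then `Nef^e(X) = Nef(X)`, and for every group `Γ` of
automorphisms of `N^1(X)`, which preserves the lattice of the classes of line bundles and the cone
`Nef^e(X)` (for instance the image of `Aut(X, Δ)`), there is a rational polyhedral cone
`Π ⊆ Nef^e(X)` which is a fundamental domain for the action of `Γ` on `Nef^e(X)`. -/
theorem result {K : Type} [Field K] [Algebra ℂ K] [IsFF ℂ K] {l : ℕ} (hl : 0 < l)
    {r : Fin l → ℕ} (hr : ∀ j, 2 ≤ r j) (E : ∀ j, Bundle K (r j)) {W : Place ℂ K →₀ ℤ}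
    (hW : Canonical W) :
    (∀ Δ : Bdry E, CalabiYau Δ W → LcGeneric Δ → degree W ≤ 0) ∧
    (degree W ≤ 0 → NefEffCone E = NefCone E ∧ ConeConjecture (NefEffCone E)) := by
  have va : S_VA := Pool.Agent.Helper63.PP.va (Pool.Agent.Helper80.PP.core
    Pool.Agent.Helper85.PP.obs wrd Pool.Agent.Helper22.PP.p_mod ten bil)
  have pos : S_POS := Pool.Agent.Helper45.PP.pos min' (Pool.Agent.Helper81.PP.sec wrd)
    Pool.Agent.Helper43.PP.grow Pool.Agent.Helper4.PP.jets
  have hr0 : ∀ j, 0 < r j := fun j => by have := hr j; omega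
  have wt : S_WT := Pool.Agent.Helper13.CC.wt Pool.Agent.Helper66.FL.hn
    Pool.Agent.Helper9.FL.mix
  have eff : S_EFF := Pool.Agent.Helper32.CC.eff Pool.Agent.Helper41.CC2.rrb
    Pool.Agent.Helper72.CC.sym
  have dom : S_DOM := Pool.Agent.Helper4.CC.dom Pool.Agent.Helper90.CC.perm
    Pool.Agent.Helper83.CC.s_ord
  have h := fun hg => cone_genus eff (Pool.Agent.Helper45.CC.amp min' pos va)
    Pool.Agent.Helper36.CC.nef Pool.Agent.Helper31.CC.genr dom hl hr E
    ((canonical_iff W).1 hW) hg
  rw [degree_eq]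
  refine ⟨fun Δ h1 h2 => Pool.Agent.Helper4.CC.gen2 wt Δ W hr0 ((cy_iff Δ W).1 h1) h2,
    fun hg => ?_⟩
  rw [NefEffCone, nef_eq, eff_eq]
  exact ⟨(h hg).1, fun Γ hΓ => by
    obtain ⟨S, hS⟩ := (h hg).2 Γ (fun g hg => (hΓ g hg).1) (fun g hg => (hΓ g hg).2)
    exact hasDomain hS⟩

end Pool.Agent.Results.MP_9f99c5_ag.FibreProductPairs
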